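import Mathlib

/-!
# Components of rim-compact spaces

In a paracompact, locally connected, rim-compact space every component is Lindelöf.
-/

set_option autoImplicit false

namespace Pool.Agent.GenTop

open Set Topology

universe u

/-- A connected set which meets a set and its complement meets its boundary. -/
lemma inter_frontier_nonempty {X : Type u} [TopologicalSpace X] {C G : Set X}
    (hC : IsPreconnected C) (h1 : (C ∩ G).Nonempty) (h2 : (C ∩ Gᶜ).Nonempty) :
    (C ∩ frontier G).Nonempty := by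
  by_contra hcon
  rw [not_nonempty_iff_eq_empty] at hcon
  have hsub : C ⊆ interior G ∪ (closure G)ᶜ := by
    intro x hx
    by_contra hx'
    rw [mem_union, not_or] at hx'
    have : x ∈ C ∩ frontier G := ⟨hx, by simpa using hx'.2, hx'.1⟩
    rw [hcon] at this
    exact this
  obtain ⟨x, hxC, hxG⟩ := h1
  obtain ⟨y, hyC, hyG⟩ := h2
  have hx : x ∈ interior G := by
    rcases hsub hxC with h | h
    · exact h
    · exact absurd (subset_closure hxG) h
  have hy : y ∈ (closure G)ᶜ := by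
    rcases hsub hyC with h | h
    · exact absurd (interior_subset h) hyG
    · exact h
  obtain ⟨z, -, hz1, hz2⟩ := hC _ _ isOpen_interior isClosed_closure.isOpen_compl hsub
    ⟨x, hxC, hx⟩ ⟨y, hyC, hy⟩
  exact hz2 (subset_closure (interior_subset hz1))

/-- **Components.** In a paracompact, locally connected, rim-compact space the components are
Lindelöf. -/
theorem isLindelof_connectedComponent {X : Type u} [TopologicalSpace X] [LocallyConnectedSpace X]
    [ParacompactSpace X]
    (hrim : ∃ B : Set (Set X), TopologicalSpace.IsTopologicalBasis B ∧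
      ∀ U ∈ B, IsCompact (frontier U)) (x0 : X) : IsLindelof (connectedComponent x0) := by
  classical
  refine isLindelof_of_countable_subcover fun {ι} U hU hcov => ?_
  obtain ⟨B, hB, hBc⟩ := hrim
  have hQc : IsClosed (connectedComponent x0) := isClosed_connectedComponent
  let α := {b : Set X // b ∈ B ∧ ((∃ i, b ⊆ U i) ∨ b ⊆ (connectedComponent x0)ᶜ)}
  obtain ⟨β, t, hto, htc, htlf, hta⟩ := ParacompactSpace.locallyFinite_refinement α
    (fun b : α => b.1) (fun b => hB.isOpen b.2.1) (by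
      rw [eq_univ_iff_forall]
      intro x
      by_cases hx : x ∈ connectedComponent x0
      · obtain ⟨i, hi⟩ := mem_iUnion.1 (hcov hx)
        obtain ⟨b, hb, hxb, hbU⟩ := hB.mem_nhds_iff.1 ((hU i).mem_nhds hi)
        exact mem_iUnion.2 ⟨⟨b, hb, Or.inl ⟨i, hbU⟩⟩, hxb⟩
      · obtain ⟨b, hb, hxb, hbU⟩ := hB.mem_nhds_iff.1 (hQc.isOpen_compl.mem_nhds hx)
        exact mem_iUnion.2 ⟨⟨b, hb, Or.inr hbU⟩, hxb⟩)
  choose a ha using hta
  let s : β → Set X := fun b => (a b).1
  have hso : ∀ b, IsOpen (s b) := fun b => hB.isOpen (a b).2.1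
  have hsc : ∀ b, IsCompact (frontier (s b)) := fun b => hBc _ (a b).2.1
  let G : Set β → Set X := fun S => ⋃ b ∈ S, s b
  have hGo : ∀ S, IsOpen (G S) := fun S => isOpen_biUnion fun b _ => hso b
  have hGc : ∀ S : Set β, S.Finite → IsCompact (frontier (G S)) := by
    intro S hS
    refine (hS.isCompact_biUnion fun b _ => hsc b).of_isClosed_subset isClosed_frontier ?_
    rw [(hGo S).frontier_eq, hS.closure_biUnion]
    rintro x ⟨hx1, hx2⟩
    obtain ⟨b, hb, hxb⟩ := mem_iUnion₂.1 hx1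
    refine mem_iUnion₂.2 ⟨b, hb, ?_⟩
    rw [(hso b).frontier_eq]
    exact ⟨hxb, fun h => hx2 (mem_biUnion hb h)⟩
  obtain ⟨b0, hb0⟩ : ∃ b, x0 ∈ t b := by
    have : x0 ∈ ⋃ b, t b := by rw [htc]; trivial
    exact mem_iUnion.1 this
  let S : ℕ → Set β := fun n => Nat.rec {b0}
    (fun _ S => S ∪ {b | (t b ∩ frontier (G S)).Nonempty}) n
  have hS0 : S 0 = {b0} := rfl
  have hSs : ∀ n, S (n + 1) = S n ∪ {b | (t b ∩ frontier (G (S n))).Nonempty} := fun n => rfl
  have hSf : ∀ n, (S n).Finite := by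
    intro n
    induction n with
    | zero => rw [hS0]; exact finite_singleton _
    | succ n ih =>
      rw [hSs]
      exact ih.union (htlf.finite_nonempty_inter_compact (hGc _ ih))
  let W : Set X := ⋃ n, G (S n)
  have hWo : IsOpen W := isOpen_iUnion fun n => hGo _
  have hWc : IsClosed W := by
    refine isClosed_of_closure_subset fun y hy => ?_
    by_contra hyW
    obtain ⟨b, hb⟩ : ∃ b, y ∈ t b := by
      have : y ∈ ⋃ b, t b := by rw [htc]; trivial
      exact mem_iUnion.1 this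
    have hCo : IsOpen (connectedComponentIn (t b) y) := (hto b).connectedComponentIn
    obtain ⟨z, hzC, hzW⟩ := mem_closure_iff.1 hy _ hCo (mem_connectedComponentIn hb)
    obtain ⟨n, hn⟩ := mem_iUnion.1 hzW
    have hyn : y ∉ G (S n) := fun h => hyW (mem_iUnion.2 ⟨n, h⟩)
    obtain ⟨w, hwC, hwf⟩ := inter_frontier_nonempty (G := G (S n))
      isPreconnected_connectedComponentIn ⟨z, hzC, hn⟩ ⟨y, mem_connectedComponentIn hb, hyn⟩
    have hbS : b ∈ S (n + 1) := by
      rw [hSs]
      exact Or.inr ⟨w, connectedComponentIn_subset _ _ hwC, hwf⟩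
    exact hyW (mem_iUnion.2 ⟨n + 1, mem_biUnion hbS (ha b hb)⟩)
  have hx0W : x0 ∈ W := mem_iUnion.2 ⟨0, mem_biUnion (show b0 ∈ S 0 from rfl) (ha b0 hb0)⟩
  have hQW : connectedComponent x0 ⊆ W := IsClopen.connectedComponent_subset ⟨hWc, hWo⟩ hx0W
  have hTc : (⋃ n, S n).Countable := countable_iUnion fun n => (hSf n).countable
  refine ⟨{i | ∃ b ∈ ⋃ n, S n, ∃ h : ∃ i, s b ⊆ U i, i = h.choose}, ?_, ?_⟩
  · have : {i | ∃ b ∈ ⋃ n, S n, ∃ h : ∃ i, s b ⊆ U i, i = h.choose} ⊆
        ⋃ b ∈ ⋃ n, S n, {i | ∃ h : ∃ i, s b ⊆ U i, i = h.choose} := by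
      rintro i ⟨b, hb, h, hi⟩
      exact mem_biUnion hb ⟨h, hi⟩
    refine (hTc.biUnion fun b _ => ?_).mono this
    refine Set.Subsingleton.countable ?_
    rintro i ⟨h, hi⟩ j ⟨h', hj⟩
    rw [hi, hj]
  · intro x hx
    obtain ⟨n, hn⟩ := mem_iUnion.1 (hQW hx)
    obtain ⟨b, hb, hxb⟩ := mem_iUnion₂.1 hn
    have h : ∃ i, s b ⊆ U i := by
      rcases (a b).2.2 with h | h
      · exact h
      · exact absurd hx (h hxb)
    exact mem_biUnion (show h.choose ∈ {i | ∃ b ∈ ⋃ n, S n, ∃ h : ∃ i, s b ⊆ U i, i = h.choose}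
      from ⟨b, mem_iUnion.2 ⟨n, hb⟩, h, rfl⟩) (h.choose_spec hxb)

end Pool.Agent.GenTop
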