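import Mathlib

set_option autoImplicit false

namespace Pool.Agent.GenTop

open Set

variable {I : Type*}

/-- The forward closure of a point under a set mapping. -/
def fwd (f : I → Set I) (a : I) : Set I := {b | Relation.ReflTransGen (fun x y => y ∈ f x) a b}

lemma fwd_countable (f : I → Set I) (hf : ∀ a, (f a).Countable) (a : I) :
    (fwd f a).Countable := by
  let T : ℕ → Set I := fun n => Nat.rec {a} (fun _ D => ⋃ x ∈ D, f x) n
  have hT0 : T 0 = {a} := rfl
  have hTs : ∀ n, T (n + 1) = ⋃ x ∈ T n, f x := fun n => rfl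
  have hc : ∀ n, (T n).Countable := by
    intro n
    induction n with
    | zero => rw [hT0]; exact countable_singleton a
    | succ n ih => rw [hTs]; exact ih.biUnion fun x _ => hf x
  refine (countable_iUnion hc).mono ?_
  intro b hb
  have hb' : Relation.ReflTransGen (fun x y => y ∈ f x) a b := hb
  induction hb' with
  | refl => exact mem_iUnion.2 ⟨0, by rw [hT0]; exact mem_singleton a⟩
  | tail hab hbc ih =>
    obtain ⟨n, hn⟩ := mem_iUnion.1 (ih hab)
    refine mem_iUnion.2 ⟨n + 1, ?_⟩
    rw [hTs]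
    exact mem_biUnion hn hbc

/-- **Free colouring.** If every point `a` is assigned a finite set `f a`, there is a colouring by
natural numbers such that no other element of `f a` has the colour of `a`. -/
theorem exists_free_coloring (f : I → Set I) (hf : ∀ a, (f a).Finite) :
    ∃ c : I → ℕ, ∀ a, ∀ b ∈ f a, b ≠ a → c b ≠ c a := by
  classical
  obtain ⟨r, wf⟩ : ∃ r : I → I → Prop, IsWellOrder I r := ⟨WellOrderingRel, inferInstance⟩
  have hwf : WellFounded r := wf.wf
  have hself : ∀ a, a ∈ fwd f a := fun a => Relation.ReflTransGen.refl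
  have hne : ∀ a, ({b | a ∈ fwd f b} : Set I).Nonempty := fun a => ⟨a, hself a⟩
  let ρ : I → I := fun a => hwf.min {b | a ∈ fwd f b} (hne a)
  have hρ : ∀ a, a ∈ fwd f (ρ a) := fun a => hwf.min_mem _ (hne a)
  have hρmono : ∀ a, ∀ b ∈ f a, ¬ r (ρ a) (ρ b) := by
    intro a b hb
    have h1 : b ∈ fwd f (ρ a) := Relation.ReflTransGen.tail (hρ a) hb
    exact hwf.not_lt_min {b' | b ∈ fwd f b'} h1
  -- injective enumerations
  have hinj : ∀ d : I, ∃ e : I → ℕ, Set.InjOn e (fwd f d) := by
    intro d
    exact Set.countable_iff_exists_injOn.1 (fwd_countable f (fun a => (hf a).countable) d)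
  choose e he using hinj
  -- choice of the second coordinate
  have hfresh : ∀ (n : ℕ) (s : Set ℕ), s.Finite → ∃ k, Nat.pair n k ∉ s := by
    intro n s hs
    by_contra hcon
    push Not at hcon
    have : (range (fun k => Nat.pair n k)).Finite := hs.subset (by
      rintro _ ⟨k, rfl⟩
      exact hcon k)
    have hinf : (range (fun k => Nat.pair n k)).Infinite := by
      refine infinite_range_of_injective ?_
      intro k l hkl
      have := congrArg Nat.unpair hkl
      simpa using this
    exact hinf this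
  choose! fresh hfreshspec using hfresh
  let avoid : ∀ a : I, (∀ b, r (ρ b) (ρ a) → ℕ) → Set ℕ := fun a ih =>
    {n | ∃ b, ∃ _ : b ∈ f a, ∃ h : r (ρ b) (ρ a), n = ih b h}
  have havoid : ∀ a ih, (avoid a ih).Finite := by
    intro a ih
    refine ((hf a).image (fun b => if h : r (ρ b) (ρ a) then ih b h else 0)).subset ?_
    rintro n ⟨b, hb, h, rfl⟩
    exact ⟨b, hb, by simp [h]⟩
  let wfρ : WellFounded (fun b a => r (ρ b) (ρ a)) := InvImage.wf ρ hwf
  let c : I → ℕ := wfρ.fix (fun a ih => Nat.pair (e (ρ a) a) (fresh (e (ρ a) a) (avoid a ih)))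
  have hc : ∀ a, c a = Nat.pair (e (ρ a) a) (fresh (e (ρ a) a) (avoid a (fun b _ => c b))) := by
    intro a
    exact wfρ.fix_eq _ a
  refine ⟨c, ?_⟩
  intro a b hb hba heq
  by_cases hr : r (ρ b) (ρ a)
  · have h1 := hfreshspec (e (ρ a) a) _ (havoid a (fun b _ => c b))
    rw [← hc a] at h1
    exact h1 ⟨b, hb, hr, heq.symm⟩
  · have hρeq : ρ b = ρ a := by
      exact wf.trichotomous (ρ b) (ρ a) hr (hρmono a b hb)
    have h1 : e (ρ b) b = e (ρ a) a := by
      have h2 := congrArg (fun n => (Nat.unpair n).1) heq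
      have h3 : (Nat.unpair (c b)).1 = e (ρ b) b := by rw [hc b, Nat.unpair_pair]
      have h4 : (Nat.unpair (c a)).1 = e (ρ a) a := by rw [hc a, Nat.unpair_pair]
      rw [← h3, ← h4]
      exact h2
    rw [hρeq] at h1
    refine hba (he (ρ a) ?_ (hρ a) h1)
    rw [← hρeq]
    exact hρ b

end Pool.Agent.GenTop
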