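import Mathlib
import Pool.Agent.GenTop.FreeColoring

set_option autoImplicit false

namespace Pool.Agent.GenTop

open Set Topology

/-- Submetacompactness (also called `θ`-refinability). -/
def Submetacompact (X : Type*) [TopologicalSpace X] : Prop :=
  ∀ 𝒰 : Set (Set X), (∀ u ∈ 𝒰, IsOpen u) → ⋃₀ 𝒰 = Set.univ →
    ∃ V : ℕ → Set (Set X),
      (∀ n, ∀ v ∈ V n, IsOpen v ∧ ∃ u ∈ 𝒰, v ⊆ u) ∧
      (∀ n, ⋃₀ V n = Set.univ) ∧
      (∀ x : X, ∃ n, {v ∈ V n | x ∈ v}.Finite)

variable {X : Type*} [TopologicalSpace X] {I : Type*}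

/-- The members of `𝒱` that meet `F a` for some `a ∈ A`. -/
def meeting (𝒱 : Set (Set X)) (F : I → Set X) (A : Set I) : Set (Set X) :=
  {v ∈ 𝒱 | ∃ a ∈ A, (v ∩ F a).Nonempty}

lemma subset_sUnion_meeting {𝒱 : Set (Set X)} (hcov : ⋃₀ 𝒱 = univ) (F : I → Set X) (A : Set I) :
    (⋃ a ∈ A, F a) ⊆ ⋃₀ meeting 𝒱 F A := by
  intro x hx
  obtain ⟨a, ha, hxa⟩ := mem_iUnion₂.1 hx
  have : x ∈ ⋃₀ 𝒱 := by rw [hcov]; trivial
  obtain ⟨v, hv, hxv⟩ := this
  exact ⟨v, ⟨hv, a, ha, x, hxv, hxa⟩, hxv⟩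

/-- The state of the construction: a labelling of the indices and an open set for each label. -/
structure St (X I : Type*) where
  q : I → ℕ
  H : ℕ → Set X

/-- Requirement at level `m`. -/
def St.P (V : ℕ → Set (Set X)) (F : I → Set X) (m : ℕ) (st : St X I) : Prop :=
  ∀ k, IsOpen (st.H k) ∧ (∀ a, st.q a = k → F a ⊆ st.H k) ∧
    closure (st.H k) ⊆ ⋃₀ meeting (V (Nat.unpair m).1) F {a | st.q a = k}

/-- Requirement between consecutive levels. -/
def St.R (V : ℕ → Set (Set X)) (F K : I → Set X) (m : ℕ) (st st' : St X I) : Prop :=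
  (∀ a b, st'.q a = st'.q b → st.q a = st.q b) ∧
  (∀ a, closure (st'.H (st'.q a)) ⊆ st.H (st.q a)) ∧
  ∀ a, ∃ g : Set (Set X), g ⊆ meeting (V (Nat.unpair m).1) F {b | st.q b = st.q a} ∧
    K a ∩ closure (st.H (st.q a)) ⊆ ⋃₀ g ∧
    ∀ v ∈ g, ∀ b, st'.q b = st'.q a → ¬ (v ∩ F b).Nonempty

lemma step [NormalSpace X] (V : ℕ → Set (Set X)) (F K : I → Set X)
    (hVo : ∀ n, ∀ v ∈ V n, IsOpen v) (hVc : ∀ n, ⋃₀ V n = Set.univ)
    (hFclosed : ∀ A : Set I, IsClosed (⋃ a ∈ A, F a))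
    (hK : ∀ a, IsCompact (K a))
    (hone : ∀ n, ∀ v ∈ V n, ∀ a b, (v ∩ F a).Nonempty → (v ∩ F b).Nonempty → a = b)
    (hdis : ∀ n, ∀ v ∈ V n, ∀ a, (v ∩ F a).Nonempty → ¬ (v ∩ K a).Nonempty)
    (m : ℕ) (st : St X I) (hst : St.P V F m st) :
    ∃ st', St.P V F (m + 1) st' ∧ St.R V F K m st st' := by
  classical
  have hmo : ∀ n A, ∀ v ∈ meeting (V n) F A, IsOpen v := fun n A v hv => hVo n v hv.1
  -- finite subcovers
  have hg : ∀ a, ∃ g : Set (Set X), g.Finite ∧
      g ⊆ meeting (V (Nat.unpair m).1) F {b | st.q b = st.q a} ∧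
      K a ∩ closure (st.H (st.q a)) ⊆ ⋃₀ g ∧ ∀ v ∈ g, (v ∩ K a).Nonempty := by
    intro a
    have hc : IsCompact (K a ∩ closure (st.H (st.q a))) := (hK a).inter_right isClosed_closure
    have hsub : K a ∩ closure (st.H (st.q a)) ⊆
        ⋃ v ∈ meeting (V (Nat.unpair m).1) F {b | st.q b = st.q a}, id v := by
      intro x hx
      have := (hst (st.q a)).2.2 hx.2
      rw [sUnion_eq_biUnion] at this
      exact this
    obtain ⟨g, hgsub, hgfin, hgcov⟩ := hc.elim_finite_subcover_image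
      (fun v hv => hmo _ _ v hv) hsub
    refine ⟨{v ∈ g | (v ∩ K a).Nonempty}, hgfin.subset (sep_subset _ _),
      (sep_subset _ _).trans hgsub, ?_, fun v hv => hv.2⟩
    intro x hx
    obtain ⟨v, hv, hxv⟩ := mem_iUnion₂.1 (hgcov hx)
    exact ⟨v, ⟨hv, x, hxv, hx.1⟩, hxv⟩
  choose g hgfin hgsub hgcov hgmeet using hg
  let f : I → Set I := fun a => {b | ∃ v ∈ g a, (v ∩ F b).Nonempty}
  have hf : ∀ a, (f a).Finite := by
    intro a
    have : f a = ⋃ v ∈ g a, {b | (v ∩ F b).Nonempty} := by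
      ext b; simp [f]
    rw [this]
    refine (hgfin a).biUnion fun v hv => ?_
    refine Set.Subsingleton.finite ?_
    intro b hb b' hb'
    exact hone _ v (hgsub a hv).1 b b' hb hb'
  have hfa : ∀ a, a ∉ f a := by
    rintro a ⟨v, hv, hva⟩
    exact hdis _ v (hgsub a hv).1 a hva (hgmeet a v hv)
  obtain ⟨c, hc⟩ := exists_free_coloring f hf
  let q' : I → ℕ := fun a => Nat.pair (st.q a) (c a)
  have hq' : ∀ a, (Nat.unpair (q' a)).1 = st.q a := fun a => by simp [q']
  have hq'2 : ∀ a, (Nat.unpair (q' a)).2 = c a := fun a => by simp [q']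
  have hH : ∀ k', ∃ u, IsOpen u ∧ (⋃ a ∈ {a | q' a = k'}, F a) ⊆ u ∧
      closure u ⊆ st.H (Nat.unpair k').1 ∩
        ⋃₀ meeting (V (Nat.unpair (m + 1)).1) F {a | q' a = k'} := by
    intro k'
    refine normal_exists_closure_subset (hFclosed _) ?_ ?_
    · exact (hst _).1.inter (isOpen_sUnion (hmo _ _))
    · refine subset_inter ?_ (subset_sUnion_meeting (hVc _) F _)
      refine iUnion₂_subset fun a ha => ?_
      have : st.q a = (Nat.unpair k').1 := by rw [← hq' a]; rw [show q' a = k' from ha]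
      exact (hst _).2.1 a this
  choose H' hH'o hH'F hH'c using hH
  refine ⟨⟨q', H'⟩, ?_, ?_, ?_, ?_⟩
  · intro k'
    refine ⟨hH'o k', ?_, (hH'c k').trans inter_subset_right⟩
    intro a ha
    exact (subset_biUnion_of_mem (u := F) (show a ∈ {a | q' a = k'} from ha)).trans (hH'F k')
  · intro a b hab
    change q' a = q' b at hab
    rw [← hq' a, ← hq' b, hab]
  · intro a
    have := (hH'c (q' a)).trans inter_subset_left
    rw [hq' a] at this
    exact this
  · intro a
    refine ⟨g a, hgsub a, hgcov a, ?_⟩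
    intro v hv b hb hvb
    change q' b = q' a at hb
    have hbf : b ∈ f a := ⟨v, hv, hvb⟩
    have hne : b ≠ a := by
      rintro rfl
      exact hfa b hbf
    refine hc a b hbf hne ?_
    rw [← hq'2 a, ← hq'2 b, hb]

/-- **Separation lemma.** In a normal submetacompact space, a discrete family of closed sets `F a`
can be divided into countably many subfamilies, each of which has an open expansion whose
closure misses the compact sets `K a` belonging to the members of the subfamily. -/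
theorem separate [T2Space X] [NormalSpace X] (hsub : Submetacompact X) (F K : I → Set X)
    (hFclosed : ∀ A : Set I, IsClosed (⋃ a ∈ A, F a))
    (hFdisj : ∀ a b, a ≠ b → Disjoint (F a) (F b))
    (hK : ∀ a, IsCompact (K a)) (hKF : ∀ a, Disjoint (K a) (F a)) :
    ∃ (J : ℕ → Set I) (H : ℕ → Set X), (⋃ k, J k = univ) ∧ (∀ k, IsOpen (H k)) ∧
      ∀ k, ∀ a ∈ J k, F a ⊆ H k ∧ Disjoint (K a) (closure (H k)) := by
  classical
  let W : I → Set X := fun a => (K a ∪ ⋃ b ∈ {b | b ≠ a}, F b)ᶜ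
  let 𝒲 : Set (Set X) := range W ∪ {(⋃ b ∈ (univ : Set I), F b)ᶜ}
  have hWo : ∀ u ∈ 𝒲, IsOpen u := by
    rintro u (⟨a, rfl⟩ | rfl)
    · exact ((hK a).isClosed.union (hFclosed _)).isOpen_compl
    · exact (hFclosed _).isOpen_compl
  have hWc : ⋃₀ 𝒲 = univ := by
    rw [eq_univ_iff_forall]
    intro x
    by_cases hx : x ∈ ⋃ b ∈ (univ : Set I), F b
    · obtain ⟨a, _, hxa⟩ := mem_iUnion₂.1 hx
      refine ⟨W a, Or.inl ⟨a, rfl⟩, ?_⟩
      rintro (h | h)
      · exact (disjoint_left.1 (hKF a)) h hxa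
      · obtain ⟨b, hb, hxb⟩ := mem_iUnion₂.1 h
        exact (disjoint_left.1 (hFdisj b a hb)) hxb hxa
    · exact ⟨_, Or.inr rfl, hx⟩
  obtain ⟨V, hV1, hVc, hVfin⟩ := hsub 𝒲 hWo hWc
  have hVo : ∀ n, ∀ v ∈ V n, IsOpen v := fun n v hv => (hV1 n v hv).1
  have hVW : ∀ n, ∀ v ∈ V n, ∀ a, (v ∩ F a).Nonempty → v ⊆ W a := by
    rintro n v hv a ⟨x, hxv, hxa⟩
    obtain ⟨u, hu, hvu⟩ := (hV1 n v hv).2
    rcases hu with ⟨b, rfl⟩ | rfl
    · by_cases hab : a = b
      · rw [hab]; exact hvu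
      · exfalso
        refine hvu hxv (Or.inr ?_)
        exact mem_biUnion (show a ∈ {c | c ≠ b} from hab) hxa
    · exfalso
      exact hvu hxv (mem_biUnion (mem_univ a) hxa)
  have hone : ∀ n, ∀ v ∈ V n, ∀ a b, (v ∩ F a).Nonempty → (v ∩ F b).Nonempty → a = b := by
    intro n v hv a b ha hb
    by_contra hab
    obtain ⟨x, hxv, hxa⟩ := ha
    refine hVW n v hv b hb hxv (Or.inr ?_)
    exact mem_biUnion (show a ∈ {c | c ≠ b} from hab) hxa
  have hdis : ∀ n, ∀ v ∈ V n, ∀ a, (v ∩ F a).Nonempty → ¬ (v ∩ K a).Nonempty := by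
    rintro n v hv a ha ⟨x, hxv, hxK⟩
    exact hVW n v hv a ha hxv (Or.inl hxK)
  -- initial state
  have h0 : ∃ st : St X I, St.P V F 0 st := by
    have hA : ∀ k : ℕ, ∃ u, IsOpen u ∧ (⋃ a ∈ {a : I | (0 : ℕ) = k}, F a) ⊆ u ∧
        closure u ⊆ ⋃₀ meeting (V (Nat.unpair 0).1) F {a | (0 : ℕ) = k} := by
      intro k
      exact normal_exists_closure_subset (hFclosed _)
        (isOpen_sUnion fun v hv => hVo _ v hv.1) (subset_sUnion_meeting (hVc _) F _)
    choose H hHo hHF hHc using hA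
    refine ⟨⟨fun _ => 0, H⟩, fun k => ⟨hHo k, ?_, hHc k⟩⟩
    intro a ha
    exact (subset_biUnion_of_mem (u := F) (show a ∈ {a : I | (0 : ℕ) = k} from ha)).trans (hHF k)
  obtain ⟨st0, hst0⟩ := h0
  have hstep := step V F K hVo hVc hFclosed hK hone hdis
  choose! nxt hnxtP hnxtR using hstep
  let st : ℕ → St X I := fun m => Nat.rec st0 (fun m s => nxt m s) m
  have hstS : ∀ m, st (m + 1) = nxt m (st m) := fun m => rfl
  have hP : ∀ m, St.P V F m (st m) := by
    intro m
    induction m with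
    | zero => exact hst0
    | succ m ih => rw [hstS]; exact hnxtP m _ ih
  have hR : ∀ m, St.R V F K m (st m) (st (m + 1)) := by
    intro m
    rw [hstS]
    exact hnxtR m _ (hP m)
  have href : ∀ m m', m ≤ m' → ∀ a b, (st m').q a = (st m').q b → (st m).q a = (st m).q b := by
    intro m m' hmm
    induction hmm with
    | refl => exact fun a b h => h
    | step _ ih => exact fun a b h => ih a b ((hR _).1 a b h)
  -- the key claim
  have key : ∀ a, ∃ m, Disjoint (K a) (closure ((st m).H ((st m).q a))) := by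
    intro a
    by_contra hcon
    push Not at hcon
    have hne : ∀ m, (K a ∩ closure ((st m).H ((st m).q a))).Nonempty := fun m =>
      not_disjoint_iff_nonempty_inter.1 (hcon m)
    have hdec : ∀ m, K a ∩ closure ((st (m + 1)).H ((st (m + 1)).q a)) ⊆
        K a ∩ closure ((st m).H ((st m).q a)) := by
      intro m
      refine inter_subset_inter_right _ ?_
      exact ((hR m).2.1 a).trans subset_closure
    obtain ⟨z, hz⟩ := IsCompact.nonempty_iInter_of_sequence_nonempty_isCompact_isClosed _ hdec hne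
      ((hK a).inter_right isClosed_closure) (fun m => (hK a).isClosed.inter isClosed_closure)
    rw [mem_iInter] at hz
    have hg : ∀ m, ∃ v, v ∈ meeting (V (Nat.unpair m).1) F {b | (st m).q b = (st m).q a} ∧
        z ∈ v ∧ ∀ b, (st (m + 1)).q b = (st (m + 1)).q a → ¬ (v ∩ F b).Nonempty := by
      intro m
      obtain ⟨g, hg1, hg2, hg3⟩ := (hR m).2.2 a
      obtain ⟨v, hv, hzv⟩ := hg2 (hz m)
      exact ⟨v, hg1 hv, hzv, hg3 v hv⟩
    choose v hv hzv hvfree using hg
    obtain ⟨n, hn⟩ := hVfin z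
    have hinj : Function.Injective (fun j => v (Nat.pair n j)) := by
      have hlt : ∀ i j, i < j → v (Nat.pair n i) ≠ v (Nat.pair n j) := by
        intro i j hij heq
        have hlt : Nat.pair n i < Nat.pair n j := Nat.pair_lt_pair_right n hij
        obtain ⟨_, b, hb, hvb⟩ := hv (Nat.pair n j)
        have h1 := href _ _ (Nat.succ_le_of_lt hlt) b a hb
        rw [← heq] at hvb
        exact hvfree _ b h1 hvb
      intro i j hij
      rcases lt_trichotomy i j with h | h | h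
      · exact absurd hij (hlt i j h)
      · exact h
      · exact absurd hij.symm (hlt j i h)
    refine (Set.infinite_range_of_injective hinj) (hn.subset ?_)
    rintro _ ⟨j, rfl⟩
    refine ⟨?_, hzv _⟩
    have := (hv (Nat.pair n j)).1
    rw [Nat.unpair_pair] at this
    exact this
  refine ⟨fun k => {a | (st (Nat.unpair k).1).q a = (Nat.unpair k).2 ∧
      Disjoint (K a) (closure ((st (Nat.unpair k).1).H (Nat.unpair k).2))},
    fun k => (st (Nat.unpair k).1).H (Nat.unpair k).2, ?_, ?_, ?_⟩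
  · rw [eq_univ_iff_forall]
    intro a
    obtain ⟨m, hm⟩ := key a
    refine mem_iUnion.2 ⟨Nat.pair m ((st m).q a), ?_⟩
    simp only [Nat.unpair_pair, mem_ofPred_eq, true_and]
    exact hm
  · intro k
    exact (hP _ _).1
  · rintro k a ⟨ha1, ha2⟩
    exact ⟨(hP _ _).2.1 a ha1, ha2⟩

end Pool.Agent.GenTop
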