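import Mathlib
import Pool.Agent.GenTop.Separate

set_option autoImplicit false

namespace Pool.Agent.GenTop

open Set Topology

variable {X : Type*} [TopologicalSpace X]

/-- A function whose cozero set has its closure covered by a disjoint open family refining `𝓑`. -/
structure Elem (𝓑 : Set (Set X)) (h : X → ℝ) : Prop where
  cont : Continuous h
  fam : ∃ 𝒞 : Set (Set X), (∀ C ∈ 𝒞, IsOpen C ∧ ∃ B ∈ 𝓑, C ⊆ B) ∧ 𝒞.PairwiseDisjoint id ∧
    closure {x | 0 < h x} ⊆ ⋃₀ 𝒞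

/-- The set `E` is covered by the cozero sets of countably many elementary functions. -/
def Good (𝓑 : Set (Set X)) (E : Set X) : Prop :=
  ∃ 𝓗 : Set (X → ℝ), 𝓗.Countable ∧ (∀ h ∈ 𝓗, Elem 𝓑 h) ∧ ∀ x ∈ E, ∃ h ∈ 𝓗, 0 < h x

lemma Good.iUnion {ι : Type*} [Countable ι] {𝓑 : Set (Set X)} {E : ι → Set X}
    (h : ∀ i, Good 𝓑 (E i)) : Good 𝓑 (⋃ i, E i) := by
  choose 𝓗 h1 h2 h3 using h
  refine ⟨⋃ i, 𝓗 i, countable_iUnion h1, ?_, ?_⟩
  · intro f hf
    obtain ⟨i, hi⟩ := mem_iUnion.1 hf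
    exact h2 i f hi
  · intro x hx
    obtain ⟨i, hi⟩ := mem_iUnion.1 hx
    obtain ⟨f, hf, hfx⟩ := h3 i x hi
    exact ⟨f, mem_iUnion.2 ⟨i, hf⟩, hfx⟩

lemma Good.mono {𝓑 : Set (Set X)} {E E' : Set X} (h : Good 𝓑 E') (hE : E ⊆ E') : Good 𝓑 E := by
  obtain ⟨𝓗, h1, h2, h3⟩ := h
  exact ⟨𝓗, h1, h2, fun x hx => h3 x (hE hx)⟩

lemma exists_elem [NormalSpace X] {𝓑 : Set (Set X)} {F : Set X} (hF : IsClosed F)
    {𝒞 : Set (Set X)} (h1 : ∀ C ∈ 𝒞, IsOpen C ∧ ∃ B ∈ 𝓑, C ⊆ B) (h2 : 𝒞.PairwiseDisjoint id)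
    (h3 : F ⊆ ⋃₀ 𝒞) : ∃ h : X → ℝ, Elem 𝓑 h ∧ ∀ x ∈ F, 0 < h x := by
  obtain ⟨u, huo, hFu, hcu⟩ := normal_exists_closure_subset hF
    (isOpen_sUnion fun C hC => (h1 C hC).1) h3
  obtain ⟨h, hh0, hh1, _⟩ := exists_continuous_zero_one_of_isClosed huo.isClosed_compl hF
    (disjoint_compl_left_iff_subset.2 hFu)
  refine ⟨h, ⟨h.continuous, 𝒞, h1, h2, ?_⟩, ?_⟩
  · refine (closure_mono ?_).trans hcu
    intro x hx
    by_contra hxu
    have := hh0 hxu
    simp only [mem_ofPred_eq] at hx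
    rw [this] at hx
    simp at hx
  · intro x hx
    rw [hh1 hx]
    simp

/-- The members of a family containing a point. -/
def mem_at (𝒱 : Set (Set X)) (x : X) : Set (Set X) := {v ∈ 𝒱 | x ∈ v}

lemma isClosed_order {𝒱 : Set (Set X)} (h : ∀ v ∈ 𝒱, IsOpen v) (n : ℕ) :
    IsClosed {x | (mem_at 𝒱 x).encard ≤ n} := by
  rw [← isOpen_compl_iff, isOpen_iff_forall_mem_open]
  intro x hx
  have hx' : (n : ℕ∞) < (mem_at 𝒱 x).encard := by simpa using hx
  obtain ⟨t, ht, htc⟩ := Set.exists_subset_encard_eq (Order.add_one_le_of_lt hx')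
  have htfin : t.Finite := by
    rw [← Set.encard_lt_top_iff, htc]
    exact_mod_cast ENat.natCast_lt_top (n + 1)
  refine ⟨⋂₀ t, ?_, htfin.isOpen_sInter fun v hv => h v (ht hv).1, fun v hv => (ht hv).2⟩
  intro y hy
  have hsub : t ⊆ mem_at 𝒱 y := fun v hv => ⟨(ht hv).1, hy v hv⟩
  have h1 := Set.encard_le_encard hsub
  rw [htc] at h1
  simp only [mem_compl_iff, mem_ofPred_eq, not_le]
  exact lt_of_lt_of_le (by exact_mod_cast Nat.lt_succ_self n) h1

theorem good_step [T2Space X] [NormalSpace X] [LocallyConnectedSpace X]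
    (hsub : Submetacompact X) {𝓑 : Set (Set X)}
    (h𝓑 : ∀ B ∈ 𝓑, IsOpen B ∧ IsCompact (frontier B)) {𝒱 : Set (Set X)}
    (h𝒱 : ∀ v ∈ 𝒱, IsOpen v ∧ ∃ B ∈ 𝓑, v ⊆ B) (hcov : ⋃₀ 𝒱 = univ) (j : ℕ)
    (hj : Good 𝓑 {x | (mem_at 𝒱 x).encard ≤ j}) :
    Good 𝓑 {x | (mem_at 𝒱 x).encard ≤ (j + 1 : ℕ)} := by
  classical
  obtain ⟨𝓗, hc𝓗, hE𝓗, hcov𝓗⟩ := hj
  let O : Set X := ⋃ h ∈ 𝓗, {x | 0 < h x}
  have hO : IsOpen O := isOpen_biUnion fun h hh => isOpen_lt continuous_const (hE𝓗 h hh).cont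
  let F0 : Set X := {x | (mem_at 𝒱 x).encard ≤ (j + 1 : ℕ)} \ O
  have hF0 : IsClosed F0 := (isClosed_order (fun v hv => (h𝒱 v hv).1) (j + 1)).sdiff hO
  have hcard : ∀ x ∈ F0, (mem_at 𝒱 x).encard = (j + 1 : ℕ) := by
    intro x hx
    refine le_antisymm hx.1 ?_
    by_contra hlt
    push Not at hlt
    have hle : (mem_at 𝒱 x).encard ≤ j := by
      have : ((j + 1 : ℕ) : ℕ∞) = (j : ℕ∞) + 1 := by push_cast; rfl
      rw [this] at hlt
      exact Order.le_of_lt_add_one hlt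
    obtain ⟨h, hh, hhx⟩ := hcov𝓗 x hle
    exact hx.2 (mem_biUnion hh hhx)
  have hfin : ∀ x ∈ F0, (mem_at 𝒱 x).Finite := by
    intro x hx
    rw [← Set.encard_lt_top_iff, hcard x hx]
    exact_mod_cast ENat.natCast_lt_top (j + 1)
  let F : Set (Set X) → Set X := fun a => {x ∈ F0 | mem_at 𝒱 x = a}
  have hFclosed : ∀ A : Set (Set (Set X)), IsClosed (⋃ a ∈ A, F a) := by
    intro A
    refine isClosed_of_closure_subset ?_
    intro y hy
    have hyF0 : y ∈ F0 := by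
      refine closure_minimal ?_ hF0 hy
      exact iUnion₂_subset fun a _ x hx => hx.1
    have hUo : IsOpen (⋂₀ mem_at 𝒱 y) :=
      (hfin y hyF0).isOpen_sInter fun v hv => (h𝒱 v hv.1).1
    obtain ⟨x, hxU, hx⟩ := mem_closure_iff.1 hy _ hUo (fun v hv => hv.2)
    obtain ⟨a, ha, hxF0, hxa⟩ := mem_iUnion₂.1 hx
    have hsub' : mem_at 𝒱 y ⊆ mem_at 𝒱 x := fun v hv => ⟨hv.1, hxU v hv⟩
    have heq : mem_at 𝒱 y = mem_at 𝒱 x :=
      (hfin y hyF0).eq_of_subset_of_encard_le hsub' (by rw [hcard x hxF0, hcard y hyF0])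
    refine mem_biUnion ha ⟨hyF0, ?_⟩
    rw [heq, hxa]
  have hFdisj : ∀ a b, a ≠ b → Disjoint (F a) (F b) := by
    intro a b hab
    rw [disjoint_left]
    rintro x ⟨_, h1⟩ ⟨_, h2⟩
    exact hab (h1.symm.trans h2)
  have hB : ∀ a, ∃ B : Set X, IsOpen B ∧ IsCompact (frontier B) ∧ F a ⊆ B ∧
      ((F a).Nonempty → B ∈ 𝓑) := by
    intro a
    by_cases hne : (F a).Nonempty
    · obtain ⟨x, hx⟩ := hne
      have : x ∈ ⋃₀ 𝒱 := by rw [hcov]; trivial
      obtain ⟨v, hv, hxv⟩ := this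
      obtain ⟨B, hB, hvB⟩ := (h𝒱 v hv).2
      refine ⟨B, (h𝓑 B hB).1, (h𝓑 B hB).2, ?_, fun _ => hB⟩
      rintro y ⟨hy1, hy2⟩
      have hva : v ∈ a := by rw [← hx.2]; exact ⟨hv, hxv⟩
      rw [← hy2] at hva
      exact hvB hva.2
    · rw [not_nonempty_iff_eq_empty] at hne
      refine ⟨∅, isOpen_empty, by simp, by rw [hne], ?_⟩
      intro h
      rw [hne] at h
      exact absurd h not_nonempty_empty
  choose B hBo hBc hFB hB𝓑 using hB
  obtain ⟨J, H, hJ, hHo, hJH⟩ := separate hsub F (fun a => frontier (B a)) hFclosed hFdisj hBc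
    (fun a => (disjoint_frontier_iff_isOpen.2 (hBo a)).mono_right (hFB a))
  have helem : ∀ k, ∃ h : X → ℝ, Elem 𝓑 h ∧ ∀ x ∈ ⋃ a ∈ J k, F a, 0 < h x := by
    intro k
    have hFH : (⋃ a ∈ J k, F a) ⊆ H k := iUnion₂_subset fun a ha => (hJH k a ha).1
    refine exists_elem (𝒞 := {C | ∃ x ∈ ⋃ a ∈ J k, F a, C = connectedComponentIn (H k) x})
      (hFclosed (J k)) ?_ ?_ ?_
    · rintro C ⟨x, hx, rfl⟩
      refine ⟨(hHo k).connectedComponentIn, ?_⟩
      obtain ⟨a, ha, hxa⟩ := mem_iUnion₂.1 hx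
      refine ⟨B a, hB𝓑 a ⟨x, hxa⟩, ?_⟩
      have hxH : x ∈ H k := hFH hx
      refine isPreconnected_connectedComponentIn.subset_left_of_subset_union (hBo a)
        (isClosed_closure (s := B a)).isOpen_compl ?_ ?_ ?_
      · exact disjoint_compl_right_iff_subset.2 subset_closure
      · intro y hy
        by_contra hcon
        rw [mem_union, not_or] at hcon
        have hyfr : y ∈ frontier (B a) := by
          rw [(hBo a).frontier_eq]
          exact ⟨by simpa using hcon.2, hcon.1⟩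
        exact disjoint_left.1 (hJH k a ha).2 hyfr
          (subset_closure (connectedComponentIn_subset _ _ hy))
      · exact ⟨x, mem_connectedComponentIn hxH, hFB a hxa⟩
    · rintro C ⟨x, hx, rfl⟩ D ⟨y, hy, rfl⟩ hne
      change Disjoint (connectedComponentIn (H k) x) (connectedComponentIn (H k) y)
      rw [disjoint_left]
      intro z hz1 hz2
      refine hne ?_
      rw [connectedComponentIn_eq hz1, connectedComponentIn_eq hz2]
    · intro x hx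
      exact ⟨_, ⟨x, hx, rfl⟩, mem_connectedComponentIn (hFH hx)⟩
  choose h hhE hhpos using helem
  refine ⟨𝓗 ∪ range h, hc𝓗.union (countable_range h), ?_, ?_⟩
  · rintro f (hf | ⟨k, rfl⟩)
    · exact hE𝓗 f hf
    · exact hhE k
  · intro x hx
    by_cases hxO : x ∈ O
    · obtain ⟨f, hf, hfx⟩ := mem_iUnion₂.1 hxO
      exact ⟨f, Or.inl hf, hfx⟩
    · have hxF0 : x ∈ F0 := ⟨hx, hxO⟩
      have : mem_at 𝒱 x ∈ ⋃ k, J k := by rw [hJ]; trivial
      obtain ⟨k, hk⟩ := mem_iUnion.1 this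
      exact ⟨h k, Or.inr ⟨k, rfl⟩, hhpos k x (mem_biUnion hk ⟨hxF0, rfl⟩)⟩

/-- A countable cover by elementary cozero sets gives a locally finite refinement. -/
theorem exists_locallyFinite_of_good {X : Type} [TopologicalSpace X] {𝓑 : Set (Set X)}
    (hgood : Good 𝓑 (univ : Set X)) :
    ∃ (β : Type) (t : β → Set X), (∀ b, IsOpen (t b)) ∧ (⋃ b, t b = univ) ∧ LocallyFinite t ∧
      ∀ b, ∃ B ∈ 𝓑, t b ⊆ B := by
  classical
  obtain ⟨𝓗, hc, hE, hcov⟩ := hgood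
  have hE0 : ∀ h ∈ insert (fun _ : X => (0 : ℝ)) 𝓗, Elem 𝓑 h := by
    rintro h (rfl | hh)
    · exact ⟨continuous_const, ∅, by simp, by simp, by simp⟩
    · exact hE h hh
  obtain ⟨h, hh⟩ := (hc.insert (fun _ : X => (0 : ℝ))).exists_eq_range (insert_nonempty _ _)
  have hEh : ∀ i, Elem 𝓑 (h i) := fun i => hE0 _ (by rw [hh]; exact mem_range_self i)
  have hcovh : ∀ x, ∃ i, 0 < h i x := by
    intro x
    obtain ⟨f, hf, hfx⟩ := hcov x trivial
    have : f ∈ range h := by rw [← hh]; exact mem_insert_of_mem _ hf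
    obtain ⟨i, rfl⟩ := this
    exact ⟨i, hfx⟩
  choose 𝒞 h𝒞1 h𝒞2 h𝒞3 using fun i => (hEh i).fam
  let W : ℕ → Set X := fun i =>
    {x | 0 < h i x} ∩ ⋂ j ∈ Finset.range i, {x | h j x < 1 / ((i : ℝ) + 1)}
  have hWo : ∀ i, IsOpen (W i) := by
    intro i
    refine (isOpen_lt continuous_const (hEh i).cont).inter ?_
    exact isOpen_biInter_finset fun j _ => isOpen_lt (hEh j).cont continuous_const
  refine ⟨Σ i : ℕ, 𝒞 i, fun b => W b.1 ∩ b.2.1, ?_, ?_, ?_, ?_⟩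
  · rintro ⟨i, C, hC⟩
    exact (hWo i).inter (h𝒞1 i C hC).1
  · rw [eq_univ_iff_forall]
    intro x
    have hx := hcovh x
    have hmem : x ∈ W (Nat.find hx) := by
      refine ⟨Nat.find_spec hx, ?_⟩
      refine mem_iInter₂.2 fun j hj => ?_
      have h1 := Nat.find_min hx (Finset.mem_range.1 hj)
      push Not at h1
      refine lt_of_le_of_lt h1 ?_
      positivity
    obtain ⟨C, hC, hxC⟩ := h𝒞3 _ (subset_closure hmem.1)
    exact mem_iUnion.2 ⟨⟨Nat.find hx, C, hC⟩, hmem, hxC⟩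
  · intro x
    obtain ⟨j, hj⟩ := hcovh x
    obtain ⟨M0, hM0⟩ := exists_nat_one_div_lt hj
    have hN : ∀ i, ∃ N ∈ 𝓝 x, {C : 𝒞 i | (W i ∩ C.1 ∩ N).Nonempty}.Finite := by
      intro i
      by_cases hx : x ∈ closure {x | 0 < h i x}
      · obtain ⟨C0, hC0, hxC0⟩ := h𝒞3 i hx
        refine ⟨C0, (h𝒞1 i C0 hC0).1.mem_nhds hxC0, ?_⟩
        refine (Set.finite_singleton (⟨C0, hC0⟩ : 𝒞 i)).subset ?_
        rintro ⟨C, hC⟩ ⟨y, ⟨hy1, hy2⟩, hy3⟩
        rw [mem_singleton_iff, Subtype.mk.injEq]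
        by_contra hne
        exact disjoint_left.1 (h𝒞2 i hC hC0 hne) hy2 hy3
      · refine ⟨(closure {x | 0 < h i x})ᶜ, isClosed_closure.isOpen_compl.mem_nhds hx, ?_⟩
        convert Set.finite_empty
        rw [eq_empty_iff_forall_notMem]
        rintro C ⟨y, ⟨hy1, _⟩, hy3⟩
        exact hy3 (subset_closure hy1.1)
    choose N hN1 hN2 using hN
    let M := max M0 (j + 1)
    refine ⟨{y | 1 / ((M0 : ℝ) + 1) < h j y} ∩ ⋂ i ∈ Finset.range M, N i, ?_, ?_⟩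
    · refine Filter.inter_mem ?_ ?_
      · exact (isOpen_lt continuous_const (hEh j).cont).mem_nhds hM0
      · exact (Filter.biInter_finset_mem _).2 fun i _ => hN1 i
    · have hfin : (⋃ i ∈ Finset.range M,
          Sigma.mk i '' {C : 𝒞 i | (W i ∩ C.1 ∩ N i).Nonempty}).Finite := by
        refine Set.Finite.biUnion (Finset.finite_toSet _) fun i _ => ?_
        exact (hN2 i).image _
      refine hfin.subset ?_
      rintro ⟨i, C⟩ ⟨y, ⟨hy1, hy2⟩, hy3, hy4⟩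
      have hiM : i < M := by
        by_contra hge
        push Not at hge
        have h1 : M0 ≤ i := le_trans (le_max_left _ _) hge
        have h2 : j < i := lt_of_lt_of_le (Nat.lt_succ_self j) (le_trans (le_max_right _ _) hge)
        have h3 : h j y < 1 / ((i : ℝ) + 1) := mem_iInter₂.1 hy1.2 j (Finset.mem_range.2 h2)
        have h4 : 1 / ((i : ℝ) + 1) ≤ 1 / ((M0 : ℝ) + 1) := by
          have : (M0 : ℝ) ≤ i := by exact_mod_cast h1
          gcongr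
        have h5 : 1 / ((M0 : ℝ) + 1) < h j y := hy3
        linarith
      refine mem_biUnion (Finset.mem_range.2 hiM) ⟨C, ?_, rfl⟩
      exact ⟨y, ⟨hy1, hy2⟩, mem_iInter₂.1 hy4 i (Finset.mem_range.2 hiM)⟩
  · rintro ⟨i, C, hC⟩
    obtain ⟨B, hB, hCB⟩ := (h𝒞1 i C hC).2
    exact ⟨B, hB, inter_subset_right.trans hCB⟩

/-- **Main theorem.** Every locally connected, normal, submetacompact, rim-compact Hausdorff space
is paracompact. -/
theorem paracompact_of_rimCompact {X : Type} [TopologicalSpace X] [LocallyConnectedSpace X]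
    [T2Space X] [NormalSpace X] (hsub : Submetacompact X)
    (hrim : ∃ B : Set (Set X), TopologicalSpace.IsTopologicalBasis B ∧
      ∀ U ∈ B, IsCompact (frontier U)) : ParacompactSpace X := by
  classical
  obtain ⟨Ba, hBa, hBac⟩ := hrim
  refine ⟨fun α s hso hsc => ?_⟩
  let 𝓑 : Set (Set X) := {B | (IsOpen B ∧ IsCompact (frontier B)) ∧ ∃ i, B ⊆ s i}
  have h𝓑c : ⋃₀ 𝓑 = univ := by
    rw [eq_univ_iff_forall]
    intro x
    have : x ∈ ⋃ a, s a := by rw [hsc]; trivial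
    obtain ⟨i, hi⟩ := mem_iUnion.1 this
    obtain ⟨b, hb, hxb, hbs⟩ := hBa.mem_nhds_iff.1 ((hso i).mem_nhds hi)
    exact ⟨b, ⟨⟨hBa.isOpen hb, hBac b hb⟩, i, hbs⟩, hxb⟩
  obtain ⟨V, hV1, hVc, hVfin⟩ := hsub 𝓑 (fun u hu => hu.1.1) h𝓑c
  have hgood : ∀ n j : ℕ, Good 𝓑 {x | (mem_at (V n) x).encard ≤ j} := by
    intro n j
    induction j with
    | zero =>
      refine ⟨∅, countable_empty, by simp, ?_⟩
      intro x hx
      exfalso
      have h0 : (mem_at (V n) x).encard = 0 := by simpa using hx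
      rw [Set.encard_eq_zero] at h0
      have : x ∈ ⋃₀ V n := by rw [hVc]; trivial
      obtain ⟨v, hv, hxv⟩ := this
      have : v ∈ mem_at (V n) x := ⟨hv, hxv⟩
      rw [h0] at this
      exact this
    | succ j ih => exact good_step hsub (fun B hB => hB.1) (hV1 n) (hVc n) j ih
  have hall : Good 𝓑 (univ : Set X) := by
    refine (Good.iUnion (ι := ℕ × ℕ)
      (E := fun p => {x | (mem_at (V p.1) x).encard ≤ p.2}) (fun p => hgood p.1 p.2)).mono ?_
    intro x _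
    obtain ⟨n, hn⟩ := hVfin x
    refine mem_iUnion.2 ⟨(n, (mem_at (V n) x).ncard), ?_⟩
    change (mem_at (V n) x).encard ≤ ((mem_at (V n) x).ncard : ℕ∞)
    rw [Set.Finite.cast_ncard_eq (show (mem_at (V n) x).Finite from hn)]
  obtain ⟨β, t, h1, h2, h3, h4⟩ := exists_locallyFinite_of_good hall
  refine ⟨β, t, h1, h2, h3, ?_⟩
  intro b
  obtain ⟨B, hB, htB⟩ := h4 b
  obtain ⟨i, hi⟩ := hB.2
  exact ⟨i, htB.trans hi⟩

end Pool.Agent.GenTop
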