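import Mathlib
import Pool.Agent.GenTop.RimCompact

/-!
# Countably compact boundaries

The main theorem of `RimCompact` for all universes, and for spaces with a base of open sets whose
boundaries are countably compact: in a submetacompact space every closed countably compact set is
compact.
-/

set_option autoImplicit false

namespace Pool.Agent.GenTop

open Set Topology

universe u

/-- A family of classes of points of a closed set in which all points lie in the same finite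
number of members of an open family. -/
lemma isClosed_classes {X : Type u} [TopologicalSpace X] {𝒱 : Set (Set X)}
    (h𝒱 : ∀ v ∈ 𝒱, IsOpen v) {F0 : Set X} (hF0 : IsClosed F0) {m : ℕ}
    (hcard : ∀ x ∈ F0, (mem_at 𝒱 x).encard = m) (A : Set (Set (Set X))) :
    IsClosed {x | x ∈ F0 ∧ mem_at 𝒱 x ∈ A} := by
  have hfin : ∀ x ∈ F0, (mem_at 𝒱 x).Finite := by
    intro x hx
    rw [← Set.encard_lt_top_iff, hcard x hx]
    exact_mod_cast ENat.natCast_lt_top m
  refine isClosed_of_closure_subset ?_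
  intro y hy
  have hyF0 : y ∈ F0 := closure_minimal (fun x hx => hx.1) hF0 hy
  have hUo : IsOpen (⋂₀ mem_at 𝒱 y) := (hfin y hyF0).isOpen_sInter fun v hv => h𝒱 v hv.1
  obtain ⟨x, hxU, hxF0, hxA⟩ := mem_closure_iff.1 hy _ hUo (fun v hv => hv.2)
  have hsub' : mem_at 𝒱 y ⊆ mem_at 𝒱 x := fun v hv => ⟨hv.1, hxU v hv⟩
  have heq : mem_at 𝒱 y = mem_at 𝒱 x :=
    (hfin y hyF0).eq_of_subset_of_encard_le hsub' (by rw [hcard x hxF0, hcard y hyF0])
  exact ⟨hyF0, by rw [heq]; exact hxA⟩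

/-- The points of a countably compact closed set which lie in at most `k` members of an open cover
are covered by finitely many members. -/
lemma finite_cover_order {X : Type u} [TopologicalSpace X] {𝒱 : Set (Set X)}
    (h𝒱 : ∀ v ∈ 𝒱, IsOpen v) (hcov : ⋃₀ 𝒱 = univ) {C : Set X} (hC : IsClosed C)
    (hcc : IsCountablyCompact C) (k : ℕ) :
    ∃ t : Set (Set X), t.Finite ∧ t ⊆ 𝒱 ∧ {x | x ∈ C ∧ (mem_at 𝒱 x).encard ≤ k} ⊆ ⋃₀ t := by
  classical
  induction k with
  | zero =>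
    refine ⟨∅, finite_empty, empty_subset _, ?_⟩
    rintro x ⟨-, hx⟩
    exfalso
    have h0 : (mem_at 𝒱 x).encard = 0 := by simpa using hx
    rw [Set.encard_eq_zero] at h0
    have : x ∈ ⋃₀ 𝒱 := by rw [hcov]; trivial
    obtain ⟨v, hv, hxv⟩ := this
    have : v ∈ mem_at 𝒱 x := ⟨hv, hxv⟩
    rw [h0] at this
    exact this
  | succ k ih =>
    obtain ⟨t, htfin, htsub, htcov⟩ := ih
    let F0 : Set X := (C ∩ {x | (mem_at 𝒱 x).encard ≤ (k + 1 : ℕ)}) \ ⋃₀ t
    have hF0 : IsClosed F0 :=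
      (hC.inter (isClosed_order h𝒱 (k + 1))).sdiff (isOpen_sUnion fun v hv => h𝒱 v (htsub hv))
    have hcard : ∀ x ∈ F0, (mem_at 𝒱 x).encard = (k + 1 : ℕ) := by
      intro x hx
      refine le_antisymm hx.1.2 ?_
      by_contra hlt
      push Not at hlt
      have hle : (mem_at 𝒱 x).encard ≤ k := by
        have : ((k + 1 : ℕ) : ℕ∞) = (k : ℕ∞) + 1 := by push_cast; rfl
        rw [this] at hlt
        exact Order.le_of_lt_add_one hlt
      exact hx.2 (htcov ⟨hx.1.1, hle⟩)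
    have hcc0 : IsCountablyCompact F0 := hcc.of_isClosed_subset hF0 fun x hx => hx.1.1
    have hfin : (mem_at 𝒱 '' F0).Finite := by
      by_contra hinf
      let a := Set.Infinite.natEmbedding _ hinf
      have hU : ∀ i : ℕ, IsOpen {x | x ∈ F0 ∧ mem_at 𝒱 x ∈ {b | ∃ j, i ≤ j ∧ b = (a j).1}}ᶜ :=
        fun i => (isClosed_classes h𝒱 hF0 hcard _).isOpen_compl
      obtain ⟨i, hi⟩ := hcc0.elim_directed_cover
        (fun i : ℕ => {x | x ∈ F0 ∧ mem_at 𝒱 x ∈ {b | ∃ j, i ≤ j ∧ b = (a j).1}}ᶜ) hU (by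
          intro x hx
          rw [mem_iUnion]
          by_cases h : ∃ j, mem_at 𝒱 x = (a j).1
          · obtain ⟨j, hj⟩ := h
            refine ⟨j + 1, ?_⟩
            rintro ⟨-, j', hj', hx'⟩
            have h1 : a j = a j' := Subtype.ext (hj.symm.trans hx')
            have h2 := a.injective h1
            omega
          · refine ⟨0, ?_⟩
            rintro ⟨-, j', -, hx'⟩
            exact h ⟨j', hx'⟩) (by
          refine directed_of_isDirected_le ?_
          intro i i' hii x hx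
          rintro ⟨h1, j, hj, h2⟩
          exact hx ⟨h1, j, hii.trans hj, h2⟩)
      obtain ⟨x, hx, hxa⟩ := (a i).2
      exact hi hx ⟨hx, i, le_rfl, hxa⟩
    have hv : ∀ b ∈ mem_at 𝒱 '' F0, ∃ v, v ∈ b ∧ v ∈ 𝒱 := by
      rintro _ ⟨x, hx, rfl⟩
      have : x ∈ ⋃₀ 𝒱 := by rw [hcov]; trivial
      obtain ⟨v, hv, hxv⟩ := this
      exact ⟨v, ⟨hv, hxv⟩, hv⟩
    choose! g hg1 hg2 using hv
    refine ⟨t ∪ g '' (mem_at 𝒱 '' F0), htfin.union (hfin.image g), ?_, ?_⟩
    · rintro v (hv | ⟨b, hb, rfl⟩)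
      · exact htsub hv
      · exact hg2 b hb
    · rintro x ⟨hxC, hxk⟩
      by_cases hxt : x ∈ ⋃₀ t
      · obtain ⟨v, hv, hxv⟩ := hxt
        exact ⟨v, Or.inl hv, hxv⟩
      · have hx0 : x ∈ F0 := ⟨⟨hxC, hxk⟩, hxt⟩
        have hb : mem_at 𝒱 x ∈ mem_at 𝒱 '' F0 := ⟨x, hx0, rfl⟩
        exact ⟨_, Or.inr ⟨_, hb, rfl⟩, (hg1 _ hb).2⟩

/-- In a submetacompact space every closed countably compact set is compact. -/
theorem isCompact_of_isCountablyCompact {X : Type u} [TopologicalSpace X]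
    (hsub : Submetacompact X) {C : Set X} (hC : IsClosed C) (hcc : IsCountablyCompact C) :
    IsCompact C := by
  classical
  refine isCompact_of_finite_subcover fun {ι} U hU hCU => ?_
  obtain ⟨V, hV1, hVc, hVfin⟩ := hsub (range U ∪ {Cᶜ}) (by
      rintro u (⟨i, rfl⟩ | rfl)
      · exact hU i
      · exact hC.isOpen_compl) (by
      rw [eq_univ_iff_forall]
      intro x
      by_cases hx : x ∈ C
      · obtain ⟨i, hi⟩ := mem_iUnion.1 (hCU hx)
        exact ⟨U i, Or.inl ⟨i, rfl⟩, hi⟩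
      · exact ⟨Cᶜ, Or.inr rfl, hx⟩)
  choose t htfin htsub htcov using fun p : ℕ × ℕ =>
    finite_cover_order (fun v hv => (hV1 p.1 v hv).1) (hVc p.1) hC hcc p.2
  have hTc : (⋃ p, t p).Countable := countable_iUnion fun p => (htfin p).countable
  have hTV : ∀ v ∈ ⋃ p, t p, ∃ n, v ∈ V n := by
    intro v hv
    obtain ⟨p, hp⟩ := mem_iUnion.1 hv
    exact ⟨p.1, htsub p hp⟩
  obtain ⟨s, hsT, hsfin, hsC⟩ := hcc.elim_finite_subcover_image (U := fun v : Set X => v) hTc
    (fun v hv => by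
      obtain ⟨n, hn⟩ := hTV v hv
      exact (hV1 n v hn).1) (by
      intro x hx
      obtain ⟨n, hn⟩ := hVfin x
      have h1 : (mem_at (V n) x).encard ≤ ((mem_at (V n) x).ncard : ℕ∞) := by
        rw [Set.Finite.cast_ncard_eq (show (mem_at (V n) x).Finite from hn)]
      obtain ⟨v, hv, hxv⟩ := htcov (n, (mem_at (V n) x).ncard) ⟨hx, h1⟩
      exact mem_biUnion (mem_iUnion.2 ⟨_, hv⟩) hxv)
  have hidx : ∀ v ∈ s, (v ∩ C).Nonempty → ∃ i, v ⊆ U i := by
    rintro v hv ⟨x, hxv, hxC⟩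
    obtain ⟨n, hn⟩ := hTV v (hsT hv)
    obtain ⟨u, hu, hvu⟩ := (hV1 n v hn).2
    rcases hu with ⟨i, rfl⟩ | rfl
    · exact ⟨i, hvu⟩
    · exact absurd hxC (hvu hxv)
  by_cases hι : Nonempty ι
  · obtain ⟨i0⟩ := hι
    have hidx' : ∀ v : Set X, ∃ i, v ∈ s → (v ∩ C).Nonempty → v ⊆ U i := by
      intro v
      by_cases h : v ∈ s ∧ (v ∩ C).Nonempty
      · obtain ⟨i, hi⟩ := hidx v h.1 h.2
        exact ⟨i, fun _ _ => hi⟩
      · exact ⟨i0, fun h1 h2 => absurd ⟨h1, h2⟩ h⟩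
    choose f hf using hidx'
    refine ⟨hsfin.toFinset.image f, ?_⟩
    intro x hx
    obtain ⟨v, hv, hxv⟩ := mem_iUnion₂.1 (hsC hx)
    refine mem_iUnion₂.2 ⟨f v, Finset.mem_image.2 ⟨v, hsfin.mem_toFinset.2 hv, rfl⟩, ?_⟩
    exact hf v hv ⟨x, hxv, hx⟩ hxv
  · refine ⟨∅, ?_⟩
    intro x hx
    obtain ⟨i, -⟩ := mem_iUnion.1 (hCU hx)
    exact absurd ⟨i⟩ hι

/-- A countable cover by elementary cozero sets gives a locally finite refinement. -/
theorem exists_locallyFinite_of_goodU {X : Type u} [TopologicalSpace X] {𝓑 : Set (Set X)}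
    (hgood : Good 𝓑 (univ : Set X)) :
    ∃ (β : Type u) (t : β → Set X), (∀ b, IsOpen (t b)) ∧ (⋃ b, t b = univ) ∧ LocallyFinite t ∧
      ∀ b, ∃ B ∈ 𝓑, t b ⊆ B := by
  classical
  obtain ⟨𝓗, hc, hE, hcov⟩ := hgood
  have hE0 : ∀ h ∈ insert (fun _ : X => (0 : ℝ)) 𝓗, Elem 𝓑 h := by
    rintro h (rfl | hh)
    · exact ⟨continuous_const, ∅, by simp, by simp, by simp⟩
    · exact hE h hh
  obtain ⟨h, hh⟩ := (hc.insert (fun _ : X => (0 : ℝ))).exists_eq_range (insert_nonempty _ _)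
  have hEh : ∀ i, Elem 𝓑 (h i) := fun i => hE0 _ (by rw [hh]; exact mem_range_self i)
  have hcovh : ∀ x, ∃ i, 0 < h i x := by
    intro x
    obtain ⟨f, hf, hfx⟩ := hcov x trivial
    have : f ∈ range h := by rw [← hh]; exact mem_insert_of_mem _ hf
    obtain ⟨i, rfl⟩ := this
    exact ⟨i, hfx⟩
  choose 𝒞 h𝒞1 h𝒞2 h𝒞3 using fun i => (hEh i).fam
  let W : ℕ → Set X := fun i =>
    {x | 0 < h i x} ∩ ⋂ j ∈ Finset.range i, {x | h j x < 1 / ((i : ℝ) + 1)}
  have hWo : ∀ i, IsOpen (W i) := by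
    intro i
    refine (isOpen_lt continuous_const (hEh i).cont).inter ?_
    exact isOpen_biInter_finset fun j _ => isOpen_lt (hEh j).cont continuous_const
  refine ⟨Σ i : ℕ, 𝒞 i, fun b => W b.1 ∩ b.2.1, ?_, ?_, ?_, ?_⟩
  · rintro ⟨i, C, hC⟩
    exact (hWo i).inter (h𝒞1 i C hC).1
  · rw [eq_univ_iff_forall]
    intro x
    have hx := hcovh x
    have hmem : x ∈ W (Nat.find hx) := by
      refine ⟨Nat.find_spec hx, ?_⟩
      refine mem_iInter₂.2 fun j hj => ?_
      have h1 := Nat.find_min hx (Finset.mem_range.1 hj)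
      push Not at h1
      refine lt_of_le_of_lt h1 ?_
      positivity
    obtain ⟨C, hC, hxC⟩ := h𝒞3 _ (subset_closure hmem.1)
    exact mem_iUnion.2 ⟨⟨Nat.find hx, C, hC⟩, hmem, hxC⟩
  · intro x
    obtain ⟨j, hj⟩ := hcovh x
    obtain ⟨M0, hM0⟩ := exists_nat_one_div_lt hj
    have hN : ∀ i, ∃ N ∈ 𝓝 x, {C : 𝒞 i | (W i ∩ C.1 ∩ N).Nonempty}.Finite := by
      intro i
      by_cases hx : x ∈ closure {x | 0 < h i x}
      · obtain ⟨C0, hC0, hxC0⟩ := h𝒞3 i hx
        refine ⟨C0, (h𝒞1 i C0 hC0).1.mem_nhds hxC0, ?_⟩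
        refine (Set.finite_singleton (⟨C0, hC0⟩ : 𝒞 i)).subset ?_
        rintro ⟨C, hC⟩ ⟨y, ⟨hy1, hy2⟩, hy3⟩
        rw [mem_singleton_iff, Subtype.mk.injEq]
        by_contra hne
        exact disjoint_left.1 (h𝒞2 i hC hC0 hne) hy2 hy3
      · refine ⟨(closure {x | 0 < h i x})ᶜ, isClosed_closure.isOpen_compl.mem_nhds hx, ?_⟩
        convert Set.finite_empty
        rw [eq_empty_iff_forall_notMem]
        rintro C ⟨y, ⟨hy1, _⟩, hy3⟩
        exact hy3 (subset_closure hy1.1)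
    choose N hN1 hN2 using hN
    let M := max M0 (j + 1)
    refine ⟨{y | 1 / ((M0 : ℝ) + 1) < h j y} ∩ ⋂ i ∈ Finset.range M, N i, ?_, ?_⟩
    · refine Filter.inter_mem ?_ ?_
      · exact (isOpen_lt continuous_const (hEh j).cont).mem_nhds hM0
      · exact (Filter.biInter_finset_mem _).2 fun i _ => hN1 i
    · have hfin : (⋃ i ∈ Finset.range M,
          Sigma.mk i '' {C : 𝒞 i | (W i ∩ C.1 ∩ N i).Nonempty}).Finite := by
        refine Set.Finite.biUnion (Finset.finite_toSet _) fun i _ => ?_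
        exact (hN2 i).image _
      refine hfin.subset ?_
      rintro ⟨i, C⟩ ⟨y, ⟨hy1, hy2⟩, hy3, hy4⟩
      have hiM : i < M := by
        by_contra hge
        push Not at hge
        have h1 : M0 ≤ i := le_trans (le_max_left _ _) hge
        have h2 : j < i := lt_of_lt_of_le (Nat.lt_succ_self j) (le_trans (le_max_right _ _) hge)
        have h3 : h j y < 1 / ((i : ℝ) + 1) := mem_iInter₂.1 hy1.2 j (Finset.mem_range.2 h2)
        have h4 : 1 / ((i : ℝ) + 1) ≤ 1 / ((M0 : ℝ) + 1) := by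
          have : (M0 : ℝ) ≤ i := by exact_mod_cast h1
          gcongr
        have h5 : 1 / ((M0 : ℝ) + 1) < h j y := hy3
        linarith
      refine mem_biUnion (Finset.mem_range.2 hiM) ⟨C, ?_, rfl⟩
      exact ⟨y, ⟨hy1, hy2⟩, mem_iInter₂.1 hy4 i (Finset.mem_range.2 hiM)⟩
  · rintro ⟨i, C, hC⟩
    obtain ⟨B, hB, hCB⟩ := (h𝒞1 i C hC).2
    exact ⟨B, hB, inter_subset_right.trans hCB⟩

/-- **Main theorem.** Every locally connected, normal, submetacompact, rim-compact Hausdorff space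
is paracompact. -/
theorem paracompact_of_rimCompactU {X : Type u} [TopologicalSpace X] [LocallyConnectedSpace X]
    [T2Space X] [NormalSpace X] (hsub : Submetacompact X)
    (hrim : ∃ B : Set (Set X), TopologicalSpace.IsTopologicalBasis B ∧
      ∀ U ∈ B, IsCompact (frontier U)) : ParacompactSpace X := by
  classical
  obtain ⟨Ba, hBa, hBac⟩ := hrim
  refine ⟨fun α s hso hsc => ?_⟩
  let 𝓑 : Set (Set X) := {B | (IsOpen B ∧ IsCompact (frontier B)) ∧ ∃ i, B ⊆ s i}
  have h𝓑c : ⋃₀ 𝓑 = univ := by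
    rw [eq_univ_iff_forall]
    intro x
    have : x ∈ ⋃ a, s a := by rw [hsc]; trivial
    obtain ⟨i, hi⟩ := mem_iUnion.1 this
    obtain ⟨b, hb, hxb, hbs⟩ := hBa.mem_nhds_iff.1 ((hso i).mem_nhds hi)
    exact ⟨b, ⟨⟨hBa.isOpen hb, hBac b hb⟩, i, hbs⟩, hxb⟩
  obtain ⟨V, hV1, hVc, hVfin⟩ := hsub 𝓑 (fun u hu => hu.1.1) h𝓑c
  have hgood : ∀ n j : ℕ, Good 𝓑 {x | (mem_at (V n) x).encard ≤ j} := by
    intro n j
    induction j with
    | zero =>
      refine ⟨∅, countable_empty, by simp, ?_⟩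
      intro x hx
      exfalso
      have h0 : (mem_at (V n) x).encard = 0 := by simpa using hx
      rw [Set.encard_eq_zero] at h0
      have : x ∈ ⋃₀ V n := by rw [hVc]; trivial
      obtain ⟨v, hv, hxv⟩ := this
      have : v ∈ mem_at (V n) x := ⟨hv, hxv⟩
      rw [h0] at this
      exact this
    | succ j ih => exact good_step hsub (fun B hB => hB.1) (hV1 n) (hVc n) j ih
  have hall : Good 𝓑 (univ : Set X) := by
    refine (Good.iUnion (ι := ℕ × ℕ)
      (E := fun p => {x | (mem_at (V p.1) x).encard ≤ p.2}) (fun p => hgood p.1 p.2)).mono ?_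
    intro x _
    obtain ⟨n, hn⟩ := hVfin x
    refine mem_iUnion.2 ⟨(n, (mem_at (V n) x).ncard), ?_⟩
    change (mem_at (V n) x).encard ≤ ((mem_at (V n) x).ncard : ℕ∞)
    rw [Set.Finite.cast_ncard_eq (show (mem_at (V n) x).Finite from hn)]
  obtain ⟨β, t, h1, h2, h3, h4⟩ := exists_locallyFinite_of_goodU hall
  refine ⟨β, t, h1, h2, h3, ?_⟩
  intro b
  obtain ⟨B, hB, htB⟩ := h4 b
  obtain ⟨i, hi⟩ := hB.2
  exact ⟨i, htB.trans hi⟩

/-- **Main theorem, countably compact boundaries.** -/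
theorem paracompact_of_rimCountablyCompact {X : Type u} [TopologicalSpace X]
    [LocallyConnectedSpace X] [T2Space X] [NormalSpace X] (hsub : Submetacompact X)
    (hrim : ∃ B : Set (Set X), TopologicalSpace.IsTopologicalBasis B ∧
      ∀ U ∈ B, IsCountablyCompact (frontier U)) : ParacompactSpace X := by
  obtain ⟨B, hB, hBc⟩ := hrim
  exact paracompact_of_rimCompactU hsub ⟨B, hB, fun U hU =>
    isCompact_of_isCountablyCompact hsub isClosed_frontier (hBc U hU)⟩

end Pool.Agent.GenTop
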